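import Pool.Agent.Q224.ESF.LcgA
import Pool.Agent.Q161.ESF.Stm7

/-!
Project ESF (helper161), job LCG: the local conditions for the elements of the Selmer group.
-/

set_option autoImplicit false
set_option linter.all false

namespace Pool.Agent.Q224.ESF

open Polynomial NumberField IsDedekindDomain Finset
open Pool.Agent.Q51.EL (Abv Par)
open Pool.Agent.Q161.ESM
open Pool.Agent.Q161.ESF
open Pool.Agent.Q193.ESG
open scoped Classical

section below

variable {K L : Type} [Field K] [NumberField K] [Field L] [NumberField L]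

/-- the prime below -/
noncomputable def bl {w : HeightOneSpectrum (𝓞 K)} {l : ℕ} (hl : l ≠ 0) (hw : Abv w l) (ι : L →+* K) :
    HeightOneSpectrum (𝓞 L) where
  asIdeal := w.asIdeal.comap (RingOfIntegers.mapRingHom ι)
  isPrime := by
    have := w.isPrime
    exact Ideal.comap_isPrime _ _
  ne_bot := by
    intro h
    have h1 : (l : 𝓞 L) ∈ w.asIdeal.comap (RingOfIntegers.mapRingHom ι) := by
      rw [Ideal.mem_comap, map_natCast]
      exact hw
    rw [h, Ideal.mem_bot] at h1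
    exact hl (by exact_mod_cast h1)

theorem bl_val {w : HeightOneSpectrum (𝓞 K)} {l : ℕ} (hl : l ≠ 0) (hw : Abv w l) (ι : L →+* K) {z : L}
    (hz : (bl hl hw ι).valuation L z < 1) : w.valuation K (ι z) < 1 := by
  obtain ⟨a, ⟨b, hb⟩, hab⟩ := (bl hl hw ι).exists_primeCompl_mul_eq_of_integer (K := L) z hz.le
  change z * (b : L) = (a : L) at hab
  have hb' : b ∉ (bl hl hw ι).asIdeal := hb
  have vb : (bl hl hw ι).valuation L (b : L) = 1 := Pool.Agent.Q124.ESM.val_one hb'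
  have ha : a ∈ (bl hl hw ι).asIdeal := by
    rw [← Pool.Agent.Q124.ESM.mem_of_val_lt, ← hab, map_mul, vb, mul_one]
    exact hz
  have ha2 : RingOfIntegers.mapRingHom ι a ∈ w.asIdeal := ha
  have hb2 : RingOfIntegers.mapRingHom ι b ∉ w.asIdeal := hb'
  have h1 : w.valuation K (ι (a : L)) < 1 := (Pool.Agent.Q124.ESM.mem_of_val_lt _).2 ha2
  have h2 : w.valuation K (ι (b : L)) = 1 := Pool.Agent.Q124.ESM.val_one hb2
  rw [← hab, map_mul, map_mul, h2, mul_one] at h1
  exact h1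

theorem bl_cp {w : HeightOneSpectrum (𝓞 K)} {l : ℕ} (hl : l ≠ 0) (hw : Abv w l) {g : K ≃ₐ[ℚ] K} (hg : Fb w l g)
    (ι : L →+* K) : bl hl hw (cp g ι) = bl hl hw ι := by
  apply HeightOneSpectrum.ext
  ext z
  show RingOfIntegers.mapRingHom (cp g ι) z ∈ w.asIdeal ↔ RingOfIntegers.mapRingHom ι z ∈ w.asIdeal
  rw [← Pool.Agent.Q124.ESM.mem_of_val_lt, ← Pool.Agent.Q124.ESM.mem_of_val_lt]
  show w.valuation K (g (ι (z : L))) < 1 ↔ w.valuation K (ι (z : L)) < 1
  rw [mvp hl hg]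

theorem bl_over {F : Type} [Field F] [NumberField F] [Algebra F L] {w : HeightOneSpectrum (𝓞 K)} {l : ℕ}
    (hl : l ≠ 0) (hw : Abv w l) (ι : L →+* K) :
    (bl hl hw ι).asIdeal.comap (algebraMap (𝓞 F) (𝓞 L)) = (bl hl hw (ι.comp (algebraMap F L))).asIdeal := by
  ext z
  rfl

theorem bl_two {w : HeightOneSpectrum (𝓞 K)} {l : ℕ} (hl : l.Prime) (hl2 : l ≠ 2) (hw : Abv w l) (ι : L →+* K) :
    (2 : 𝓞 L) ∉ (bl hl.ne_zero hw ι).asIdeal := by
  intro h
  have h1 : RingOfIntegers.mapRingHom ι (2 : 𝓞 L) ∈ w.asIdeal := h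
  rw [map_ofNat] at h1
  have h2 : ((2 : ℤ) : 𝓞 K) ∈ w.asIdeal := by exact_mod_cast h1
  have h3 := int_mem hl hw h2
  have h4 : l ∣ 2 := by exact_mod_cast h3
  exact hl2 ((Nat.prime_dvd_prime_iff_eq hl Nat.prime_two).1 h4)

end below

section main

variable {F L K : Type} [Field F] [NumberField F] [Field L] [NumberField L] [Algebra F L]
  [Field K] [NumberField K] [IsGalois ℚ K]

/-- the local situation at one embedding -/
theorem locU {a b : 𝓞 F} {th : 𝓞 L} (hirr : Irreducible (X ^ 3 + C (a : F) * X + C (b : F) : F[X]))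
    (hroot : (th : L) ^ 3 + algebraMap F L a * (th : L) + algebraMap F L b = 0)
    (hdeg : Module.finrank F L = 3) {N : ℕ} (hN : (4 * a ^ 3 + 27 * b ^ 2 : 𝓞 F) ∣ (N : 𝓞 F))
    {w : HeightOneSpectrum (𝓞 K)} {l : ℕ} (hl : l.Prime) (hw : Abv w l) (hlN : ¬ l ∣ N)
    {D : ℤ} {x y : F} (hy0 : y ≠ 0) (ι : L →+* K)
    (hxy : w.valuation K (ι (algebraMap F L
      ((x ^ 3 + ((a : F) * (D : F) ^ 2) * x + (b : F) * (D : F) ^ 3) / y ^ 2 - 1))) < 1) :
    ∃ ι2 ι3 : L →+* K, (∀ ι' : L →+* K, ι'.comp (algebraMap F L) = ι.comp (algebraMap F L) ↔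
      ι' = ι ∨ ι' = ι2 ∨ ι' = ι3) ∧ ι ≠ ι2 ∧ ι ≠ ι3 ∧ ι2 ≠ ι3 ∧
      w.valuation K (ι (th : L)) ≤ 1 ∧ w.valuation K (ι2 (th : L)) ≤ 1 ∧ w.valuation K (ι3 (th : L)) ≤ 1 ∧
      w.valuation K (ι (th : L) - ι2 (th : L)) = 1 ∧ w.valuation K (ι (th : L) - ι3 (th : L)) = 1 ∧
      w.valuation K (ι2 (th : L) - ι3 (th : L)) = 1 ∧
      ι (algebraMap F L y) ≠ 0 ∧
      U1 (w.valuation K) ((ι (algebraMap F L x) - D * ι (th : L)) *
        (ι (algebraMap F L x) - D * ι2 (th : L)) * (ι (algebraMap F L x) - D * ι3 (th : L)) /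
          ι (algebraMap F L y) ^ 2) ∧
      ι (algebraMap F L x - D * (th : L)) = ι (algebraMap F L x) - D * ι (th : L) ∧
      ι2 (algebraMap F L x - D * (th : L)) = ι (algebraMap F L x) - D * ι2 (th : L) ∧
      ι3 (algebraMap F L x - D * (th : L)) = ι (algebraMap F L x) - D * ι3 (th : L) := by
  obtain ⟨ι2, ι3, hb, h12, h13, h23, t12, t13, t23⟩ := blk_three hirr hroot hdeg ι
  have c2 : ι2.comp (algebraMap F L) = ι.comp (algebraMap F L) := (hb ι2).2 (Or.inr (Or.inl rfl))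
  have c3 : ι3.comp (algebraMap F L) = ι.comp (algebraMap F L) := (hb ι3).2 (Or.inr (Or.inr rfl))
  have e2 : ∀ z : F, ι2 (algebraMap F L z) = ι (algebraMap F L z) := fun z =>
    congrArg (fun g : F →+* K => g z) c2
  have e3 : ∀ z : F, ι3 (algebraMap F L z) = ι (algebraMap F L z) := fun z =>
    congrArg (fun g : F →+* K => g z) c3
  have hr : ∀ ι' : L →+* K, (∀ z : F, ι' (algebraMap F L z) = ι (algebraMap F L z)) →
      (ι' (th : L)) ^ 3 + ι (algebraMap F L a) * ι' (th : L) + ι (algebraMap F L b) = 0 := by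
    intro ι' h
    have h1 := congrArg ι' hroot
    rw [map_add, map_add, map_mul, map_pow, map_zero, h, h] at h1
    exact h1
  have r1 := hr ι (fun z => rfl)
  have r2 := hr ι2 e2
  have r3 := hr ι3 e3
  have v1 := val_int w ι th
  have v2 := val_int w ι2 th
  have v3 := val_int w ι3 th
  have hΔ : w.valuation K (4 * (ι (algebraMap F L a)) ^ 3 + 27 * (ι (algebraMap F L b)) ^ 2) = 1 := by
    have h1 := val_Δ hN hl hw hlN (ι.comp (algebraMap F L))
    have h2 : (ι.comp (algebraMap F L)) ((4 * a ^ 3 + 27 * b ^ 2 : 𝓞 F) : F) =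
        4 * (ι (algebraMap F L a)) ^ 3 + 27 * (ι (algebraMap F L b)) ^ 2 := by
      have h3 : ((4 * a ^ 3 + 27 * b ^ 2 : 𝓞 F) : F) = 4 * (a : F) ^ 3 + 27 * (b : F) ^ 2 := by
        push_cast
        rfl
      rw [h3]
      simp only [RingHom.comp_apply, map_add, map_mul, map_pow, map_ofNat]
    rwa [h2] at h1
  obtain ⟨d12, d13, d23⟩ := dif_val r1 r2 r3 t12 t13 t23 hΔ v1 v2 v3
  have hdl : ∀ ι' : L →+* K, (∀ z : F, ι' (algebraMap F L z) = ι (algebraMap F L z)) →
      ι' (algebraMap F L x - D * (th : L)) = ι (algebraMap F L x) - D * ι' (th : L) := by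
    intro ι' h
    rw [map_sub, map_mul, map_intCast, h]
  refine ⟨ι2, ι3, hb, h12, h13, h23, v1, v2, v3, d12, d13, d23, ?_, ?_, hdl ι fun z => rfl, hdl ι2 e2, hdl ι3 e3⟩
  · intro h
    apply hy0
    have h1 := ι.injective (h.trans (map_zero ι).symm)
    exact (algebraMap F L).injective (h1.trans (map_zero _).symm)
  · rw [← fac r1 r2 r3 t12 t13 t23]
    simp only [map_sub, map_div₀, map_add, map_mul, map_pow, map_intCast, map_one] at hxy
    exact hxy

/-- the ramified case at one embedding -/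
theorem loc_oddU {a b : 𝓞 F} {th : 𝓞 L} (hirr : Irreducible (X ^ 3 + C (a : F) * X + C (b : F) : F[X]))
    (hroot : (th : L) ^ 3 + algebraMap F L a * (th : L) + algebraMap F L b = 0)
    (hdeg : Module.finrank F L = 3) {N : ℕ} (hN : (4 * a ^ 3 + 27 * b ^ 2 : 𝓞 F) ∣ (N : 𝓞 F))
    {w : HeightOneSpectrum (𝓞 K)} {l : ℕ} (hl : l.Prime) (hw : Abv w l) (hlN : ¬ l ∣ N)
    {D : ℤ} {x y : F} (hy0 : y ≠ 0)
    (hvD : w.valuation K (D : K) = WithZero.exp (-1 : ℤ)) {δ : L}
    (hδ : δ = algebraMap F L x - D * (th : L)) (ι : L →+* K)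
    (hxy : w.valuation K (ι (algebraMap F L
      ((x ^ 3 + ((a : F) * (D : F) ^ 2) * x + (b : F) * (D : F) ^ 3) / y ^ 2 - 1))) < 1) :
    (∑ ι' ∈ univ.filter (fun ι' : L →+* K => ι'.comp (algebraMap F L) = ι.comp (algebraMap F L)),
      Ee w δ ι' = 0) ∧
    (Ee w δ ι = 0 → Par w (ι δ) 0) ∧ (Ee w δ ι = 1 → Par w (ι δ) 1) ∧
    U1 (w.valuation K) (ι δ * (if Ee w δ ι = 1 then (D : K) else 1) *
      uu (algebraMap F L) th (Ee w δ) ι / (rr F w th D x y (Ee w δ) ι) ^ 2) := by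
  obtain ⟨ι2, ι3, hb, h12, h13, h23, v1, v2, v3, d12, d13, d23, hy, hE, q1, q2, q3⟩ :=
    locU hirr hroot hdeg hN hl hw hlN hy0 ι hxy
  rw [← hδ] at q1 q2 q3
  have pos : ∀ ι' : L →+* K, w.valuation K (ι' δ) = WithZero.exp (-1 : ℤ) → Ee w δ ι' = 1 := by
    intro ι' h
    unfold Ee
    rw [if_pos h]
  have neg : ∀ ι' : L →+* K, w.valuation K (ι' δ) ≠ WithZero.exp (-1 : ℤ) → Ee w δ ι' = 0 := by
    intro ι' h
    unfold Ee
    rw [if_neg h]
  have h10 : ¬ (1 : ZMod 2) = 0 := by decide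
  have h01 : ¬ (0 : ZMod 2) = 1 := by decide
  have hp1 : w.valuation K (ι δ) = WithZero.exp (-1 : ℤ) → Par w (ι δ) 1 := by
    intro h
    exact ⟨-1, by rw [h]; norm_num⟩
  rw [blk_sum hb h12 h13 h23]
  rcases triU hvD v1 v2 v3 d12 d13 d23 hy hE with ⟨hx, g1, g2, g3, k, hk⟩ | ⟨hx, hc⟩
  · have E1 := neg ι (by rw [q1, g1]; exact hx.ne')
    have E2 := neg ι2 (by rw [q2, g2]; exact hx.ne')
    have E3 := neg ι3 (by rw [q3, g3]; exact hx.ne')
    refine ⟨by rw [E1, E2, E3]; rfl, fun _ => ⟨k, by rw [q1, g1, hk]⟩, fun h => absurd (E1.symm.trans h) h01, ?_⟩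
    have hu : uu (algebraMap F L) th (Ee w δ) ι = 1 := by
      rw [uu_zero ∅ (fun ι' => ?_) E1, prod_empty]
      constructor
      · intro h
        exact absurd h (notMem_empty _)
      · rintro ⟨h1, h2⟩
        rcases (hb ι').1 h1 with rfl | rfl | rfl
        · exact absurd (E1.symm.trans h2) h01
        · exact absurd (E2.symm.trans h2) h01
        · exact absurd (E3.symm.trans h2) h01
    have hr : rr F w th D x y (Ee w δ) ι = ι (algebraMap F L y) / ι (algebraMap F L x) := by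
      unfold rr
      rw [if_pos hx]
    rw [hu, hr, E1, if_neg h01, mul_one, mul_one, q1]
    exact sq1U hvD v2 v3 hy hE hx
  · have hx' : ¬ WithZero.exp (-1 : ℤ) < w.valuation K (ι (algebraMap F L x)) := not_lt.2 hx
    rcases hc with ⟨g1, g2, g3, k, hk⟩ | ⟨g1, g2, g3, k, hk⟩ | ⟨g1, g2, g3, k, hk⟩
    · have E1 := neg ι (by rw [q1]; exact g1.ne)
      have E2 := pos ι2 (by rw [q2]; exact g2)
      have E3 := pos ι3 (by rw [q3]; exact g3)
      refine ⟨by rw [E1, E2, E3]; decide, fun _ => ⟨k, by rw [q1, hk]⟩, fun h => absurd (E1.symm.trans h) h01, ?_⟩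
      have hu : uu (algebraMap F L) th (Ee w δ) ι =
          (ι (th : L) - ι2 (th : L)) * (ι (th : L) - ι3 (th : L)) := by
        rw [uu_zero {ι2, ι3} (fun ι' => ?_) E1, prod_pair h23]
        rw [mem_insert, mem_singleton]
        constructor
        · rintro (rfl | rfl)
          · exact ⟨(hb _).2 (Or.inr (Or.inl rfl)), E2⟩
          · exact ⟨(hb _).2 (Or.inr (Or.inr rfl)), E3⟩
        · rintro ⟨h1, h2⟩
          rcases (hb ι').1 h1 with rfl | rfl | rfl
          · exact absurd (E1.symm.trans h2) h01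
          · exact Or.inl rfl
          · exact Or.inr rfl
      have hr : rr F w th D x y (Ee w δ) ι = ι (algebraMap F L y) / (D : K) := by
        unfold rr
        rw [if_neg hx', if_pos E1]
      rw [hu, hr, E1, if_neg h01, mul_one, q1]
      exact sq2U hvD hy hE g1 g2 g3
    · have E1 := pos ι (by rw [q1]; exact g1)
      have E2 := neg ι2 (by rw [q2]; exact g2.ne)
      have E3 := pos ι3 (by rw [q3]; exact g3)
      have E1' : ¬ Ee w δ ι = 0 := fun h => h10 (E1.symm.trans h)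
      refine ⟨by rw [E1, E2, E3]; decide, fun h => absurd h E1', fun _ => hp1 (by rw [q1]; exact g1), ?_⟩
      have hS : ∀ ι', ι' ∈ ({ι2} : Finset (L →+* K)) ↔
          (ι'.comp (algebraMap F L) = ι.comp (algebraMap F L) ∧ Ee w δ ι' = 0) := by
        intro ι'
        rw [mem_singleton]
        constructor
        · rintro rfl
          exact ⟨(hb _).2 (Or.inr (Or.inl rfl)), E2⟩
        · rintro ⟨h1, h2⟩
          rcases (hb ι').1 h1 with rfl | rfl | rfl
          · exact absurd h2 E1'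
          · rfl
          · exact absurd (E3.symm.trans h2) h10
      rw [uu_one {ι2} hS E1', rr_one {ι2} hS hx' E1', prod_singleton, prod_singleton, E1, if_pos rfl, q1]
      exact sq3 hvD d12 g2
    · have E1 := pos ι (by rw [q1]; exact g1)
      have E2 := pos ι2 (by rw [q2]; exact g2)
      have E3 := neg ι3 (by rw [q3]; exact g3.ne)
      have E1' : ¬ Ee w δ ι = 0 := fun h => h10 (E1.symm.trans h)
      refine ⟨by rw [E1, E2, E3]; decide, fun h => absurd h E1', fun _ => hp1 (by rw [q1]; exact g1), ?_⟩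
      have hS : ∀ ι', ι' ∈ ({ι3} : Finset (L →+* K)) ↔
          (ι'.comp (algebraMap F L) = ι.comp (algebraMap F L) ∧ Ee w δ ι' = 0) := by
        intro ι'
        rw [mem_singleton]
        constructor
        · rintro rfl
          exact ⟨(hb _).2 (Or.inr (Or.inr rfl)), E3⟩
        · rintro ⟨h1, h2⟩
          rcases (hb ι').1 h1 with rfl | rfl | rfl
          · exact absurd h2 E1'
          · exact absurd (E2.symm.trans h2) h10
          · rfl
      rw [uu_one {ι3} hS E1', rr_one {ι3} hS hx' E1', prod_singleton, prod_singleton, E1, if_pos rfl, q1]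
      exact sq3 hvD d13 g3

theorem uu_congr {th : 𝓞 L} {e e' : (L →+* K) → ZMod 2} {ι : L →+* K}
    (h : ∀ ι' : L →+* K, ι'.comp (algebraMap F L) = ι.comp (algebraMap F L) → e ι' = e' ι') :
    uu (algebraMap F L) th e ι = uu (algebraMap F L) th e' ι := by
  unfold uu
  rw [h ι rfl]
  have h1 : ∀ c : ZMod 2, univ.filter (fun ι' : L →+* K =>
      ι'.comp (algebraMap F L) = ι.comp (algebraMap F L) ∧ e ι' = c) =
      univ.filter (fun ι' : L →+* K => ι'.comp (algebraMap F L) = ι.comp (algebraMap F L) ∧ e' ι' = c) := by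
    intro c
    apply filter_congr
    intro ι' _
    constructor
    · rintro ⟨g1, g2⟩
      exact ⟨g1, by rw [← h ι' g1]; exact g2⟩
    · rintro ⟨g1, g2⟩
      exact ⟨g1, by rw [h ι' g1]; exact g2⟩
  rw [h1, h1]

theorem rr_congr {w : HeightOneSpectrum (𝓞 K)} {th : 𝓞 L} {D : ℤ} {x y : F} {e e' : (L →+* K) → ZMod 2}
    {ι : L →+* K} (h : ∀ ι' : L →+* K, ι'.comp (algebraMap F L) = ι.comp (algebraMap F L) → e ι' = e' ι') :
    rr F w th D x y e ι = rr F w th D x y e' ι := by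
  unfold rr
  rw [h ι rfl]
  have h1 : ∀ c : ZMod 2, univ.filter (fun ι' : L →+* K =>
      ι'.comp (algebraMap F L) = ι.comp (algebraMap F L) ∧ e ι' = c) =
      univ.filter (fun ι' : L →+* K => ι'.comp (algebraMap F L) = ι.comp (algebraMap F L) ∧ e' ι' = c) := by
    intro c
    apply filter_congr
    intro ι' _
    constructor
    · rintro ⟨g1, g2⟩
      exact ⟨g1, by rw [← h ι' g1]; exact g2⟩
    · rintro ⟨g1, g2⟩
      exact ⟨g1, by rw [h ι' g1]; exact g2⟩
  rw [h1]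

/-- the parity of a product with a square -/
theorem par_of {w : HeightOneSpectrum (𝓞 K)} {z e η : K} {c : ℤ} (hη : η ≠ 0) (he : e ≠ 0)
    (h : U1 (w.valuation K) (z / (e * η ^ 2))) (hp : Par w e c) : Par w z c := by
  obtain ⟨k, hk⟩ := hp
  obtain ⟨n, hn⟩ := exp_of_ne (v := w.valuation K) hη
  have h1 := h.val
  have h2 : w.valuation K (e * η ^ 2) ≠ 0 :=
    (Valuation.ne_zero_iff _).2 (mul_ne_zero he (pow_ne_zero 2 hη))
  rw [map_div₀, div_eq_one_iff_eq h2, map_mul, map_pow, hk, hn, ← WithZero.exp_nsmul, ← WithZero.exp_add] at h1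
  refine ⟨k + n, ?_⟩
  rw [h1]
  congr 1
  rw [nsmul_eq_mul]
  push_cast
  ring

end main

/-- **JOB LCG** -/
theorem lcg : S_LCG := by
  intro F L _ _ _ _ _ a b th hC K _ _ _ hj
  have hirr := hC.irr
  have hroot := hC.root
  have hdeg := hC.deg
  obtain ⟨B0, hB0, hB⟩ := Pool.Agent.Q224.ESM.frx K
  have hΔ : (4 * a ^ 3 + 27 * b ^ 2 : 𝓞 F) ≠ 0 := by
    intro h
    apply Pool.Agent.Q193.ESG.disc_ne hirr
    have h1 := congrArg (fun z : 𝓞 F => (z : F)) h
    push_cast at h1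
    exact h1
  obtain ⟨N, hN0, hN⟩ := exists_N hΔ
  refine ⟨2 * B0 * N, mul_ne_zero (mul_ne_zero two_ne_zero hB0) hN0, ?_⟩
  intro D hD δ hδ0 hLV
  -- the local data
  have hex : ∀ v : HeightOneSpectrum (𝓞 F), ∃ (x y : F) (η : L), (2 : 𝓞 F) ∉ v.asIdeal → (y ≠ 0 ∧ η ≠ 0 ∧
      v.valuation F ((x ^ 3 + ((a : F) * (D : F) ^ 2) * x + (b : F) * (D : F) ^ 3) / y ^ 2 - 1) < 1 ∧
      ∀ V : HeightOneSpectrum (𝓞 L), V.asIdeal.comap (algebraMap (𝓞 F) (𝓞 L)) = v.asIdeal →
        V.valuation L (δ / ((algebraMap F L x - (D : L) * (th : L)) * η ^ 2) - 1) < 1) := by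
    intro v
    by_cases h2 : (2 : 𝓞 F) ∈ v.asIdeal
    · exact ⟨0, 0, 0, fun h => absurd h2 h⟩
    · obtain ⟨x, y, η, h⟩ := hLV v h2
      exact ⟨x, y, η, fun _ => h⟩
  choose x y η hxyη using hex
  have hl2 : ∀ {l : ℕ}, ¬ l ∣ 2 * B0 * N → l ≠ 2 := by
    rintro l hlB rfl
    exact hlB ⟨B0 * N, by ring⟩
  -- the data at an embedding
  have hdat : ∀ {l : ℕ} (hl : l.Prime) (hlB : ¬ l ∣ 2 * B0 * N) {w : HeightOneSpectrum (𝓞 K)} (hw : Abv w l)
      (ι : L →+* K),
      y (bl hl.ne_zero hw (ι.comp (algebraMap F L))) ≠ 0 ∧ η (bl hl.ne_zero hw (ι.comp (algebraMap F L))) ≠ 0 ∧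
      w.valuation K (ι (algebraMap F L
        (((x (bl hl.ne_zero hw (ι.comp (algebraMap F L)))) ^ 3 + ((a : F) * (D : F) ^ 2) *
          (x (bl hl.ne_zero hw (ι.comp (algebraMap F L)))) + (b : F) * (D : F) ^ 3) /
          (y (bl hl.ne_zero hw (ι.comp (algebraMap F L)))) ^ 2 - 1))) < 1 ∧
      U1 (w.valuation K) (ι δ / (ι (algebraMap F L (x (bl hl.ne_zero hw (ι.comp (algebraMap F L)))) -
        (D : L) * (th : L)) * ι (η (bl hl.ne_zero hw (ι.comp (algebraMap F L)))) ^ 2)) := by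
    intro l hl hlB w hw ι
    obtain ⟨g1, g2, g3, g4⟩ := hxyη _ (bl_two hl (hl2 hlB) hw (ι.comp (algebraMap F L)))
    refine ⟨g1, g2, bl_val hl.ne_zero hw (ι.comp (algebraMap F L)) g3, ?_⟩
    have h1 := bl_val hl.ne_zero hw ι (g4 (bl hl.ne_zero hw ι) (bl_over hl.ne_zero hw ι))
    rw [map_sub, map_one, map_div₀, map_mul, map_pow] at h1
    exact h1
  constructor
  · intro l hl hlB hlD w hw ι
    have hlN : ¬ l ∣ N := fun h => hlB (h.mul_left _)
    obtain ⟨g1, g2, g3, g4⟩ := hdat hl hlB hw ι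
    obtain ⟨ι2, ι3, hb, h12, h13, h23, v1, v2, v3, d12, d13, d23, hy, hE, q1, q2, q3⟩ :=
      locU hirr hroot hdeg hN hl hw hlN g1 ι g3
    obtain ⟨k, hk⟩ := evnU (val_c hl hw hlD) v1 v2 v3 d12 d13 d23 hy hE
    have hη : ι (η (bl hl.ne_zero hw (ι.comp (algebraMap F L)))) ≠ 0 := (map_ne_zero ι).2 g2
    have he : ι (algebraMap F L (x (bl hl.ne_zero hw (ι.comp (algebraMap F L)))) - (D : L) * (th : L)) ≠ 0 := by
      intro h0
      have := g4.ne
      rw [h0, zero_mul, div_zero] at this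
      exact this rfl
    exact par_of hη he g4 ⟨k, by rw [q1, hk]⟩
  · intro l hl hlB hlD w hw g hg
    have hlN : ¬ l ∣ N := fun h => hlB (h.mul_left _)
    have hlB0 : ¬ l ∣ B0 := fun h => hlB ((h.mul_left _).mul_right _)
    have hvl := Pool.Agent.Q237.ESM.val_l hl (hB l hl hlB0).1 hw
    have hvD := val_D hl hw hvl hD hlD
    obtain ⟨u, hu⟩ : ∃ u : (L →+* K) → HeightOneSpectrum (𝓞 F), u = fun ι =>
      bl hl.ne_zero hw (ι.comp (algebraMap F L)) := ⟨_, rfl⟩
    have hu' : ∀ ι, bl hl.ne_zero hw (ι.comp (algebraMap F L)) = u ι := fun ι => by rw [hu]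
    have hdat' := fun ι : L →+* K => hdat hl hlB hw ι
    simp only [hu'] at hdat'
    have hub : ∀ ι ι' : L →+* K, ι'.comp (algebraMap F L) = ι.comp (algebraMap F L) → u ι' = u ι := by
      intro ι ι' h
      rw [← hu', ← hu', h]
    have hug : ∀ ι : L →+* K, u (cp g ι) = u ι := by
      intro ι
      rw [← hu', ← hu']
      exact bl_cp hl.ne_zero hw hg (ι.comp (algebraMap F L))
    -- the type
    obtain ⟨ε, hε⟩ : ∃ ε : (L →+* K) → L, ε = fun ι => algebraMap F L (x (u ι)) - (D : L) * (th : L) := ⟨_, rfl⟩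
    obtain ⟨e, he⟩ : ∃ e : (L →+* K) → ZMod 2, e = fun ι => Ee w (ε ι) ι := ⟨_, rfl⟩
    have hεb : ∀ ι ι' : L →+* K, ι'.comp (algebraMap F L) = ι.comp (algebraMap F L) → ε ι' = ε ι := by
      intro ι ι' h
      rw [hε]
      show _ - _ = _ - _
      rw [hub ι ι' h]
    have heb : ∀ ι ι' : L →+* K, ι'.comp (algebraMap F L) = ι.comp (algebraMap F L) → e ι' = Ee w (ε ι) ι' := by
      intro ι ι' h
      rw [he]
      show Ee w (ε ι') ι' = _
      rw [hεb ι ι' h]
    have H := fun ι : L →+* K => loc_oddU hirr hroot hdeg hN hl hw hlN (hdat' ι).1 hvD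
      (δ := ε ι) (by rw [hε]) ι (hdat' ι).2.2.1
    have hεg : ∀ ι, ε (cp g ι) = ε ι := by
      intro ι
      rw [hε]
      show _ - _ = _ - _
      rw [hug ι]
    have heg : ∀ ι, e (cp g ι) = e ι := by
      intro ι
      rw [he]
      show Ee w (ε (cp g ι)) (cp g ι) = Ee w (ε ι) ι
      rw [hεg ι]
      unfold Ee
      have h1 : w.valuation K (cp g ι (ε ι)) = w.valuation K (ι (ε ι)) := mvp hl.ne_zero hg (ι (ε ι))
      rw [h1]
    have hη : ∀ ι : L →+* K, ι (η (u ι)) ≠ 0 := fun ι => (map_ne_zero ι).2 (hdat' ι).2.1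
    have hU : ∀ ι : L →+* K, U1 (w.valuation K) (ι δ / (ι (ε ι) * ι (η (u ι)) ^ 2)) := by
      intro ι
      have := (hdat' ι).2.2.2
      rw [hε]
      exact this
    have hεne : ∀ ι : L →+* K, ι (ε ι) ≠ 0 := by
      intro ι h0
      have := (hU ι).ne
      rw [h0, zero_mul, div_zero] at this
      exact this rfl
    refine ⟨e, ?_, heg, fun ι => ⟨fun h => ?_, fun h => ?_⟩, ?_⟩
    · intro τ
      rcases (univ.filter (fun ι : L →+* K => ι.comp (algebraMap F L) = τ)).eq_empty_or_nonempty with h | ⟨ι, hι⟩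
      · rw [h, sum_empty]
      · have h1 := (mem_filter.1 hι).2
        rw [← h1, ← (H ι).1]
        refine sum_congr rfl fun ι' hι' => ?_
        exact heb ι ι' (mem_filter.1 hι').2
    · exact par_of (hη ι) (hεne ι) (hU ι) ((H ι).2.1 (by rw [← heb ι ι rfl]; exact h))
    · exact par_of (hη ι) (hεne ι) (hU ι) ((H ι).2.2.1 (by rw [← heb ι ι rfl]; exact h))
    · intro A hA
      obtain ⟨R, hR⟩ : ∃ R : (L →+* K) → K, R = fun ι =>
        rr F w th D (x (u ι)) (y (u ι)) e ι * ι (η (u ι)) := ⟨_, rfl⟩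
      have hRg : ∀ ι, g (R ι) = R (cp g ι) := by
        intro ι
        rw [hR]
        show g (rr F w th D (x (u ι)) (y (u ι)) e ι * ι (η (u ι))) =
          rr F w th D (x (u (cp g ι))) (y (u (cp g ι))) e (cp g ι) * (cp g ι) (η (u (cp g ι)))
        rw [map_mul, rr_eqv hl.ne_zero hg th D _ _ e heg ι, hug ι]
        rfl
      have hUA : ∀ ι ∈ A, U1 (w.valuation K) (ι δ * (if e ι = 1 then (D : K) else 1) *
          uu (algebraMap F L) th e ι / (R ι) ^ 2) := by
        intro ι _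
        have h1 := (H ι).2.2.2
        have h2 := (hU ι).mul h1
        rw [uu_congr (e' := Ee w (ε ι)) (heb ι), heb ι ι rfl]
        have h3 : R ι = rr F w th D (x (u ι)) (y (u ι)) (Ee w (ε ι)) ι * ι (η (u ι)) := by
          rw [hR]
          show rr F w th D (x (u ι)) (y (u ι)) e ι * _ = _
          rw [rr_congr (e' := Ee w (ε ι)) (heb ι)]
        rw [h3]
        have h4 : ι δ / (ι (ε ι) * ι (η (u ι)) ^ 2) * (ι (ε ι) * (if Ee w (ε ι) ι = 1 then (D : K) else 1) *
            uu (algebraMap F L) th (Ee w (ε ι)) ι / (rr F w th D (x (u ι)) (y (u ι)) (Ee w (ε ι)) ι) ^ 2) =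
            ι δ * (if Ee w (ε ι) ι = 1 then (D : K) else 1) * uu (algebraMap F L) th (Ee w (ε ι)) ι /
              (rr F w th D (x (u ι)) (y (u ι)) (Ee w (ε ι)) ι * ι (η (u ι))) ^ 2 := by
          have h5 := hεne ι
          have h6 := hη ι
          have h7 : rr F w th D (x (u ι)) (y (u ι)) (Ee w (ε ι)) ι ≠ 0 := by
            intro h0
            have := h1.ne
            rw [h0, zero_pow two_ne_zero, div_zero] at this
            exact this rfl
          field_simp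
        rw [← h4]
        exact h2
      have h2 := U1.prod hUA
      rw [prod_div_distrib, prod_pow] at h2
      refine qr_of hl (hl2 hlB) hvl hg (r := ∏ ι ∈ A, R ι) ?_ ?_ h2
      · intro h0
        rw [h0, zero_pow two_ne_zero, div_zero] at h2
        exact h2.ne rfl
      · rw [map_prod]
        refine prod_bij (fun ι _ => cp g ι) ?_ ?_ ?_ ?_
        · intro ι h
          exact (hA ι).1 h
        · intro ι1 _ ι2 _ h
          exact cp_inj g h
        · intro ι h
          exact ⟨cp g.symm ι, (hA _).2 (by rw [cp_symm]; exact h), cp_symm g ι⟩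
        · intro ι _
          exact hRg ι

end Pool.Agent.Q224.ESF
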