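import Pool.Agent.Q161.ESF.Stm7

/-!
Project ESF (helper161), job SHAF: the classes of the elements of the Selmer group.
-/

set_option autoImplicit false

namespace Pool.Agent.Q224.ESF

open WeierstrassCurve Polynomial NumberField IsDedekindDomain

open scoped Classical

open Pool.Agent.Q161.ESG (shF)
open Pool.Agent.Q161.ESF

section alg

variable {F : Type} [Field F]

theorem nd (A B : F) : (X ^ 3 + C A * X + C B : F[X]).natDegree = 3 := by compute_degree!

theorem monic (A B : F) : (X ^ 3 + C A * X + C B : F[X]).Monic := by monicity!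

theorem no_root {A B : F} (h : Irreducible (X ^ 3 + C A * X + C B : F[X])) (x : F) : x ^ 3 + A * x + B ≠ 0 := by
  intro hx
  have h1 : (X ^ 3 + C A * X + C B : F[X]).IsRoot x := by
    rw [IsRoot.def, eval_add, eval_add, eval_mul, eval_pow, eval_X, eval_C, eval_C]
    exact hx
  have h2 := degree_eq_one_of_irreducible_of_root h h1
  have h3 : (X ^ 3 + C A * X + C B : F[X]).degree = 3 := by compute_degree!
  rw [h3] at h2
  exact absurd h2 (by decide)

theorem disc_ne [CharZero F] {A B : F} (h : Irreducible (X ^ 3 + C A * X + C B : F[X])) :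
    4 * A ^ 3 + 27 * B ^ 2 ≠ 0 := by
  intro h0
  by_cases hA : A = 0
  · have hB : B = 0 := by
      rw [hA] at h0
      have h1 : (27 : F) * B ^ 2 = 0 := by
        rw [← h0]
        ring
      have h2 : (27 : F) ≠ 0 := by norm_num
      exact pow_eq_zero_iff two_ne_zero |>.1 ((mul_eq_zero.1 h1).resolve_left h2)
    apply no_root h 0
    rw [hA, hB]
    ring
  · apply no_root h (3 * B / A)
    have h1 : (3 * B / A) ^ 3 + A * (3 * B / A) + B = B * (4 * A ^ 3 + 27 * B ^ 2) / A ^ 3 := by
      field_simp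
      ring
    rw [h1, h0, mul_zero, zero_div]

variable {L : Type} [Field L] [Algebra F L]

theorem cub_tw {A B : F} {ϑ : L} (h : CubF A B L ϑ) {D : ℤ} (hD : (D : F) ≠ 0) :
    CubF (A * (D : F) ^ 2) (B * (D : F) ^ 3) L ((D : L) * ϑ) := by
  refine ⟨?_, ?_, h.deg⟩
  · have hne : (X ^ 3 + C (A * (D : F) ^ 2) * X + C (B * (D : F) ^ 3) : F[X]) ≠ 0 := (monic _ _).ne_zero
    rw [irreducible_iff_roots_eq_zero_of_degree_le_three (by rw [nd]; norm_num) (by rw [nd])]
    rw [Multiset.eq_zero_iff_forall_notMem]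
    intro x hx
    rw [mem_roots hne, IsRoot.def] at hx
    simp only [eval_add, eval_pow, eval_X, eval_mul, eval_C] at hx
    apply no_root h.irr (x / D)
    have : (x / D) ^ 3 + A * (x / D) + B = (x ^ 3 + A * (D : F) ^ 2 * x + B * (D : F) ^ 3) / (D : F) ^ 3 := by
      field_simp
    rw [this, hx, zero_div]
  · have := h.root
    rw [map_mul, map_mul, map_pow, map_pow, map_intCast]
    linear_combination (D : L) ^ 3 * this

theorem exists_poly [FiniteDimensional F L] {A B : F} {ϑ : L} (h : CubF A B L ϑ) (δ : L) :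
    ∃ d : F[X], aeval ϑ d = δ := by
  have hm : minpoly F ϑ = X ^ 3 + C A * X + C B := by
    refine (minpoly.eq_of_irreducible_of_monic h.irr ?_ (monic A B)).symm
    simp only [map_add, map_mul, map_pow, aeval_X, aeval_C]
    exact h.root
  have hint : IsIntegral F ϑ := Algebra.IsIntegral.isIntegral ϑ
  have h1 : IntermediateField.adjoin F {ϑ} = ⊤ := by
    have h2 := IntermediateField.adjoin.finrank hint
    rw [hm, nd, ← h.deg] at h2
    exact IntermediateField.eq_of_le_of_finrank_eq le_top (by rw [h2, IntermediateField.finrank_top'])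
  have h2 : δ ∈ (IntermediateField.adjoin F {ϑ}).toSubalgebra := by
    rw [h1]; exact IntermediateField.mem_top
  rw [IntermediateField.adjoin_simple_toSubalgebra_of_isAlgebraic hint.isAlgebraic,
    Algebra.adjoin_singleton_eq_range_aeval] at h2
  exact h2

end alg

theorem shaf : S_KDF → S_KIF → S_KLF → S_INF → S_APX → S_SHAF := by
  intro hKD hKI hKL hINF hAPX F L _ _ _ _ _ a b th hC0 D hD
  have hDF : (D : F) ≠ 0 := by exact_mod_cast hD
  have hC := cub_tw hC0 hDF
  set A := (a : F) * (D : F) ^ 2 with hA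
  set B := (b : F) * (D : F) ^ 3 with hB
  have hex : ∀ x : Sel2 (shF A B), ∃ (γ : (L →ₐ[F] AlgebraicClosure F) → AlgebraicClosure F) (δ : L),
      KDF (shF A B) ((D : L) * (th : L)) (Quotient.out x : selC (shF A B)).1 γ δ := by
    intro x
    exact hKD F A B L _ hC _ (Quotient.out x).2.1.1 (Quotient.out x).2.2
  choose γ δ hγ using hex
  have hloc : ∀ x : Sel2 (shF A B), EvLoc (shF A B) (Quotient.out x : selC (shF A B)).1 :=
    fun x => (Quotient.out x).2.1.2
  have htor : ∀ (x : Sel2 (shF A B)) (σ : GF F),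
      (Quotient.out x : selC (shF A B)).1 σ + (Quotient.out x : selC (shF A B)).1 σ = 0 :=
    fun x => (Quotient.out x).2.2
  have hδ0 : ∀ x, δ x ≠ 0 := by
    intro x h0
    obtain ⟨e⟩ : Nonempty (L →ₐ[F] AlgebraicClosure F) := ⟨IsAlgClosed.lift⟩
    have h1 := (hγ x).sq e
    rw [h0, map_zero] at h1
    exact (hγ x).ne e (pow_eq_zero_iff two_ne_zero |>.1 h1)
  refine ⟨δ, fun x => ⟨hδ0 x, fun v hv => ?_⟩, fun x y hxy => ?_⟩
  · obtain ⟨d, hd⟩ := exists_poly hC (δ x)
    obtain ⟨X0, Y0, g, hY, hE, hdiv⟩ := hKL F A B L _ hC _ _ _ (htor x) (hγ x) (v.adicCompletion F) ((hloc x).1 v)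
      (hINF F A B (disc_ne hC.irr) v hv) d hd
    exact hAPX F L a b th hC0 D hD v (δ x) (hδ0 x) d X0 Y0 g hd hY hE hdiv
  · obtain ⟨T, hT, h1⟩ := hKI F A B L _ hC _ _ _ _ _ _ (htor y) (htor x) (hγ y) (hγ x) (by rwa [mul_comm])
    have h2 : (QuotientAddGroup.mk (Quotient.out x : selC (shF A B)) : Sel2 (shF A B)) =
        QuotientAddGroup.mk (Quotient.out y : selC (shF A B)) := by
      rw [QuotientAddGroup.eq, AddSubgroup.mem_addSubgroupOf]
      refine ⟨T, hT, fun σ => ?_⟩
      have h5 : - (Quotient.out x : selC (shF A B)).1 σ + (Quotient.out y : selC (shF A B)).1 σ =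
          (Quotient.out y : selC (shF A B)).1 σ - (Quotient.out x : selC (shF A B)).1 σ := by abel
      exact h5.trans (h1 σ)
    have h3 : (QuotientAddGroup.mk (Quotient.out x : selC (shF A B)) : Sel2 (shF A B)) = x :=
      Quotient.out_eq x
    have h4 : (QuotientAddGroup.mk (Quotient.out y : selC (shF A B)) : Sel2 (shF A B)) = y :=
      Quotient.out_eq y
    rw [← h3, ← h4, h2]

end Pool.Agent.Q224.ESF
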