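import Pool.Agent.Q193.ESG.LCF

/-!
Project ESF (helper161), job LCG, part 1: the local computations for approximate points.
-/

set_option autoImplicit false
set_option linter.all false

namespace Pool.Agent.Q224.ESF

open Pool.Agent.Q193.ESG (U1 exp_of_ne)

section val

variable {K : Type} [Field K] {v : Valuation K (WithZero (Multiplicative ℤ))}

theorem prod_of_U1 {P y : K} (hy : y ≠ 0) (hE : U1 v (P / y ^ 2)) : P ≠ 0 ∧ v P = v y ^ 2 := by
  have h0 := hE.ne
  have h1 := hE.val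
  have hvy : v y ≠ 0 := (Valuation.ne_zero_iff v).2 hy
  refine ⟨fun h => h0 (by rw [h, zero_div]), ?_⟩
  rw [map_div₀, map_pow, div_eq_one_iff_eq (pow_ne_zero 2 hvy)] at h1
  exact h1

/-- the possible valuations -/
theorem triU {D e1 e2 e3 x y : K} (hD : v D = WithZero.exp (-1 : ℤ)) (h1 : v e1 ≤ 1) (h2 : v e2 ≤ 1)
    (h3 : v e3 ≤ 1) (h12 : v (e1 - e2) = 1) (h13 : v (e1 - e3) = 1) (h23 : v (e2 - e3) = 1)
    (hy : y ≠ 0) (hE : U1 v ((x - D * e1) * (x - D * e2) * (x - D * e3) / y ^ 2)) :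
    (WithZero.exp (-1 : ℤ) < v x ∧ v (x - D * e1) = v x ∧ v (x - D * e2) = v x ∧
      v (x - D * e3) = v x ∧ ∃ k : ℤ, v x = WithZero.exp (0 + 2 * k)) ∨
    (v x ≤ WithZero.exp (-1 : ℤ) ∧
      ((v (x - D * e1) < WithZero.exp (-1 : ℤ) ∧ v (x - D * e2) = WithZero.exp (-1 : ℤ) ∧
        v (x - D * e3) = WithZero.exp (-1 : ℤ) ∧ ∃ k : ℤ, v (x - D * e1) = WithZero.exp (0 + 2 * k)) ∨
      (v (x - D * e1) = WithZero.exp (-1 : ℤ) ∧ v (x - D * e2) < WithZero.exp (-1 : ℤ) ∧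
        v (x - D * e3) = WithZero.exp (-1 : ℤ) ∧ ∃ k : ℤ, v (x - D * e2) = WithZero.exp (0 + 2 * k)) ∨
      (v (x - D * e1) = WithZero.exp (-1 : ℤ) ∧ v (x - D * e2) = WithZero.exp (-1 : ℤ) ∧
        v (x - D * e3) < WithZero.exp (-1 : ℤ) ∧ ∃ k : ℤ, v (x - D * e3) = WithZero.exp (0 + 2 * k)))) := by
  obtain ⟨hp, hv⟩ := prod_of_U1 hy hE
  have hn1 : x - D * e1 ≠ 0 := fun h => hp (by rw [h]; ring)
  have hn2 : x - D * e2 ≠ 0 := fun h => hp (by rw [h]; ring)
  have hn3 : x - D * e3 ≠ 0 := fun h => hp (by rw [h]; ring)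
  obtain ⟨n1, g1⟩ := exp_of_ne (v := v) hn1
  obtain ⟨n2, g2⟩ := exp_of_ne (v := v) hn2
  obtain ⟨n3, g3⟩ := exp_of_ne (v := v) hn3
  obtain ⟨m, g⟩ := exp_of_ne (v := v) hy
  have hsum : 2 * m = n1 + n2 + n3 := by
    have h := hv.symm
    rw [map_mul, map_mul, g, g1, g2, g3, ← WithZero.exp_add, ← WithZero.exp_add,
      ← WithZero.exp_nsmul, WithZero.exp_inj] at h
    rw [nsmul_eq_mul] at h
    push_cast at h
    exact h
  have hDe : ∀ e : K, v e ≤ 1 → v (D * e) ≤ WithZero.exp (-1 : ℤ) := by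
    intro e he
    rw [map_mul, hD]
    exact mul_le_of_le_one_right' he
  rcases lt_or_ge (WithZero.exp (-1 : ℤ)) (v x) with hx | hx
  · left
    have hk : ∀ e : K, v e ≤ 1 → v (x - D * e) = v x := fun e he =>
      Valuation.map_sub_eq_of_lt_left v (lt_of_le_of_lt (hDe e he) hx)
    have k1 := hk e1 h1
    have k2 := hk e2 h2
    have k3 := hk e3 h3
    refine ⟨hx, k1, k2, k3, m - n1, ?_⟩
    rw [← k1, g1]
    rw [g1] at k1
    rw [g2, ← k1, WithZero.exp_inj] at k2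
    rw [g3, ← k1, WithZero.exp_inj] at k3
    congr 1
    omega
  · right
    have hle : ∀ e : K, v e ≤ 1 → v (x - D * e) ≤ WithZero.exp (-1 : ℤ) := fun e he =>
      (Valuation.map_sub v _ _).trans (max_le hx (hDe e he))
    have hmax : ∀ e e' : K, v (e - e') = 1 → ¬ (v (x - D * e) < WithZero.exp (-1 : ℤ) ∧
        v (x - D * e') < WithZero.exp (-1 : ℤ)) := by
      rintro e e' he ⟨hl, hl'⟩
      have h : v ((x - D * e') - (x - D * e)) < WithZero.exp (-1 : ℤ) :=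
        lt_of_le_of_lt (Valuation.map_sub v _ _) (max_lt hl' hl)
      have h5 : (x - D * e') - (x - D * e) = D * (e - e') := by ring
      rw [h5, map_mul, hD, he, mul_one] at h
      exact lt_irrefl _ h
    have l1 := hle e1 h1
    have l2 := hle e2 h2
    have l3 := hle e3 h3
    have m12 := hmax e1 e2 h12
    have m13 := hmax e1 e3 h13
    have m23 := hmax e2 e3 h23
    rw [g1, g2] at m12
    rw [g1, g3] at m13
    rw [g2, g3] at m23
    rw [g1] at l1 ⊢
    rw [g2] at l2 ⊢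
    rw [g3] at l3 ⊢
    simp only [WithZero.exp_le_exp, WithZero.exp_lt_exp, WithZero.exp_inj] at l1 l2 l3 m12 m13 m23 ⊢
    refine ⟨hx, ?_⟩
    by_cases c1 : n1 < -1
    · have c2 : n2 = -1 := by omega
      have c3 : n3 = -1 := by omega
      exact Or.inl ⟨c1, c2, c3, m + 1, by omega⟩
    · by_cases c2 : n2 < -1
      · exact Or.inr (Or.inl ⟨by omega, c2, by omega, m + 1, by omega⟩)
      · have c3 : n3 < -1 := by omega
        exact Or.inr (Or.inr ⟨by omega, by omega, c3, m + 1, by omega⟩)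

/-- the case of good reduction -/
theorem evnU {D e1 e2 e3 x y : K} (hD : v D = 1) (h1 : v e1 ≤ 1) (h2 : v e2 ≤ 1)
    (h3 : v e3 ≤ 1) (h12 : v (e1 - e2) = 1) (h13 : v (e1 - e3) = 1) (h23 : v (e2 - e3) = 1)
    (hy : y ≠ 0) (hE : U1 v ((x - D * e1) * (x - D * e2) * (x - D * e3) / y ^ 2)) :
    ∃ k : ℤ, v (x - D * e1) = WithZero.exp (0 + 2 * k) := by
  obtain ⟨hp, hv⟩ := prod_of_U1 hy hE
  have hn1 : x - D * e1 ≠ 0 := fun h => hp (by rw [h]; ring)
  have hn2 : x - D * e2 ≠ 0 := fun h => hp (by rw [h]; ring)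
  have hn3 : x - D * e3 ≠ 0 := fun h => hp (by rw [h]; ring)
  obtain ⟨n1, g1⟩ := exp_of_ne (v := v) hn1
  obtain ⟨n2, g2⟩ := exp_of_ne (v := v) hn2
  obtain ⟨n3, g3⟩ := exp_of_ne (v := v) hn3
  obtain ⟨m, g⟩ := exp_of_ne (v := v) hy
  have hsum : 2 * m = n1 + n2 + n3 := by
    have h := hv.symm
    rw [map_mul, map_mul, g, g1, g2, g3, ← WithZero.exp_add, ← WithZero.exp_add,
      ← WithZero.exp_nsmul, WithZero.exp_inj] at h
    rw [nsmul_eq_mul] at h
    push_cast at h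
    exact h
  have hDe : ∀ e : K, v e ≤ 1 → v (D * e) ≤ 1 := by
    intro e he
    rw [map_mul, hD, one_mul]
    exact he
  rcases lt_or_ge 1 (v x) with hx | hx
  · have hk : ∀ e : K, v e ≤ 1 → v (x - D * e) = v x := fun e he =>
      Valuation.map_sub_eq_of_lt_left v (lt_of_le_of_lt (hDe e he) hx)
    have k1 := hk e1 h1
    have k2 := hk e2 h2
    have k3 := hk e3 h3
    refine ⟨m - n1, ?_⟩
    rw [g1]
    rw [g1] at k1
    rw [g2, ← k1, WithZero.exp_inj] at k2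
    rw [g3, ← k1, WithZero.exp_inj] at k3
    congr 1
    omega
  · have hle : ∀ e : K, v e ≤ 1 → v (x - D * e) ≤ 1 := fun e he =>
      (Valuation.map_sub v _ _).trans (max_le hx (hDe e he))
    have hmax : ∀ e e' : K, v (e - e') = 1 → ¬ (v (x - D * e) < 1 ∧
        v (x - D * e') < 1) := by
      rintro e e' he ⟨hl, hl'⟩
      have h : v ((x - D * e') - (x - D * e)) < 1 :=
        lt_of_le_of_lt (Valuation.map_sub v _ _) (max_lt hl' hl)
      have h5 : (x - D * e') - (x - D * e) = D * (e - e') := by ring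
      rw [h5, map_mul, hD, he, mul_one] at h
      exact lt_irrefl _ h
    have l1 := hle e1 h1
    have l2 := hle e2 h2
    have l3 := hle e3 h3
    have m12 := hmax e1 e2 h12
    have m13 := hmax e1 e3 h13
    have m23 := hmax e2 e3 h23
    rw [g1, g2] at m12
    rw [g1, g3] at m13
    rw [g2, g3] at m23
    rw [g1] at l1 ⊢
    rw [g2] at l2
    rw [g3] at l3
    simp only [← WithZero.exp_zero, WithZero.exp_le_exp, WithZero.exp_lt_exp, WithZero.exp_inj] at l1 l2 l3 m12 m13 m23 ⊢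
    by_cases c1 : n1 < 0
    · exact ⟨m, by omega⟩
    · exact ⟨0, by omega⟩

/-- the squares, first case -/
theorem sq1U {D e1 e2 e3 x y : K} (hD : v D = WithZero.exp (-1 : ℤ)) (h2 : v e2 ≤ 1)
    (h3 : v e3 ≤ 1) (hy : y ≠ 0) (hE : U1 v ((x - D * e1) * (x - D * e2) * (x - D * e3) / y ^ 2))
    (hx : WithZero.exp (-1 : ℤ) < v x) : U1 v ((x - D * e1) / (y / x) ^ 2) := by
  obtain ⟨hp, hv⟩ := prod_of_U1 hy hE
  have hn1 : x - D * e1 ≠ 0 := fun h => hp (by rw [h]; ring)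
  have hn2 : x - D * e2 ≠ 0 := fun h => hp (by rw [h]; ring)
  have hn3 : x - D * e3 ≠ 0 := fun h => hp (by rw [h]; ring)
  have hx0 : x ≠ 0 := by
    rintro rfl
    rw [map_zero] at hx
    exact not_lt_zero' hx
  have hDe : ∀ e : K, v e ≤ 1 → v (D * e) ≤ WithZero.exp (-1 : ℤ) := by
    intro e he
    rw [map_mul, hD]
    exact mul_le_of_le_one_right' he
  have hu : ∀ e : K, v e ≤ 1 → x - D * e ≠ 0 → U1 v (x / (x - D * e)) := by
    intro e he h0
    apply U1.of_div h0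
    have e5 : x - (x - D * e) = D * e := by ring
    rw [e5, Valuation.map_sub_eq_of_lt_left v (lt_of_le_of_lt (hDe e he) hx)]
    exact lt_of_le_of_lt (hDe e he) hx
  have e6 : (x - D * e1) / (y / x) ^ 2 = ((x - D * e1) * (x - D * e2) * (x - D * e3) / y ^ 2) *
      ((x / (x - D * e2)) * (x / (x - D * e3))) := by
    rw [div_pow]
    field_simp
  rw [e6]
  exact hE.mul ((hu e2 h2 hn2).mul (hu e3 h3 hn3))

/-- the squares, second case, the special zero -/
theorem sq2U {D e1 e2 e3 x y : K} (hD : v D = WithZero.exp (-1 : ℤ))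
    (hy : y ≠ 0) (hE : U1 v ((x - D * e1) * (x - D * e2) * (x - D * e3) / y ^ 2))
    (a1 : v (x - D * e1) < WithZero.exp (-1 : ℤ)) (a2 : v (x - D * e2) = WithZero.exp (-1 : ℤ))
    (a3 : v (x - D * e3) = WithZero.exp (-1 : ℤ)) :
    U1 v ((x - D * e1) * ((e1 - e2) * (e1 - e3)) / (y / D) ^ 2) := by
  obtain ⟨hp, hv⟩ := prod_of_U1 hy hE
  have hn1 : x - D * e1 ≠ 0 := fun h => hp (by rw [h]; ring)
  have hn2 : x - D * e2 ≠ 0 := fun h => hp (by rw [h]; ring)
  have hn3 : x - D * e3 ≠ 0 := fun h => hp (by rw [h]; ring)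
  have hD0 : D ≠ 0 := by
    rintro rfl
    rw [map_zero] at hD
    exact WithZero.exp_ne_zero hD.symm
  have hu : ∀ e : K, x - D * e ≠ 0 → v (x - D * e) = WithZero.exp (-1 : ℤ) →
      U1 v (D * (e1 - e) / (x - D * e)) := by
    intro e h0 he
    apply U1.of_div h0
    have e5 : D * (e1 - e) - (x - D * e) = -(x - D * e1) := by ring
    rw [e5, Valuation.map_neg, he]
    exact a1
  have e6 : (x - D * e1) * ((e1 - e2) * (e1 - e3)) / (y / D) ^ 2 =
      ((x - D * e1) * (x - D * e2) * (x - D * e3) / y ^ 2) *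
        ((D * (e1 - e2) / (x - D * e2)) * (D * (e1 - e3) / (x - D * e3))) := by
    rw [div_pow]
    field_simp
  rw [e6]
  exact hE.mul ((hu e2 hn2 a2).mul (hu e3 hn3 a3))

end val

end Pool.Agent.Q224.ESF
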